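import Pool.Agent.Y499.HC.Stm2
import Pool.Agent.Y333.HC.Inv

/-!
# HC-INV2: the integral over the great semicircles of depth at most `R` (helper908)
-/

set_option autoImplicit false

open Real Set MeasureTheory Metric
open scoped ENNReal

namespace Pool.Agent.Y908.HC

open Pool.Agent.Y499.HC Pool.Agent.Y499.HR
open Pool.Agent.Y333.HC (half kk kk_meas inner_sub)

/-- the integral of the kernel -/
theorem W_int {s R : ℝ} (hs : 0 < s) (hsR : s < R) (hR : R < π / 2) :
    ∫⁻ α in Ioo s R, ENNReal.ofReal (sin α * cos α /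
      (√(sin R ^ 2 - sin α ^ 2) * √(sin α ^ 2 - sin s ^ 2))) = ENNReal.ofReal (π / 2) := by
  have hpi := Real.pi_pos
  have hss : 0 < sin s := sin_pos_of_pos_of_lt_pi hs (by linarith)
  have hsR' : sin s < sin R := sin_lt_sin_of_lt_of_le_pi_div_two (by linarith) hR.le hsR
  have hR1 : sin R < 1 := by
    rw [← sin_pi_div_two]
    exact sin_lt_sin_of_lt_of_le_pi_div_two (by linarith) le_rfl hR
  have hst : ∀ τ ∈ Ioo 0 (π / 2), 0 < sin τ ∧ sin τ < 1 := by
    intro τ hτ
    refine ⟨sin_pos_of_pos_of_lt_pi hτ.1 (by linarith [hτ.2]), ?_⟩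
    rw [← sin_pi_div_two]
    exact sin_lt_sin_of_lt_of_le_pi_div_two (by linarith [hτ.1]) le_rfl hτ.2
  have hct : ∀ τ ∈ Ioo 0 (π / 2), 0 < cos τ := fun τ hτ =>
    cos_pos_of_mem_Ioo ⟨by linarith [hτ.1], hτ.2⟩
  obtain ⟨A, hA⟩ : ∃ A, A = sin R ^ 2 := ⟨_, rfl⟩
  obtain ⟨B, hB⟩ : ∃ B, B = sin s ^ 2 := ⟨_, rfl⟩
  have hB0 : 0 < B := by rw [hB]; positivity
  have hAB : B < A := by rw [hA, hB]; nlinarith
  have hA1 : A < 1 := by rw [hA]; nlinarith
  have hQ : ∀ τ ∈ Ioo 0 (π / 2), B < B + (A - B) * sin τ ^ 2 ∧ B + (A - B) * sin τ ^ 2 < A := by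
    intro τ hτ
    obtain ⟨h1, h2⟩ := hst τ hτ
    have h3 : 0 < sin τ ^ 2 := by positivity
    have h4 : sin τ ^ 2 < 1 := by nlinarith
    constructor
    · nlinarith [mul_pos (sub_pos.2 hAB) h3]
    · nlinarith [mul_pos (sub_pos.2 hAB) (sub_pos.2 h4)]
  have hx : ∀ τ ∈ Ioo 0 (π / 2), 0 < √(B + (A - B) * sin τ ^ 2) ∧
      √(B + (A - B) * sin τ ^ 2) < 1 := by
    intro τ hτ
    obtain ⟨h1, h2⟩ := hQ τ hτ
    refine ⟨Real.sqrt_pos.2 (by linarith), ?_⟩
    rw [Real.sqrt_lt' one_pos]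
    linarith
  have hxsq : ∀ τ ∈ Ioo 0 (π / 2), √(B + (A - B) * sin τ ^ 2) ^ 2 = B + (A - B) * sin τ ^ 2 := by
    intro τ hτ
    exact Real.sq_sqrt (by linarith [(hQ τ hτ).1])
  have hsA : ∀ τ ∈ Ioo 0 (π / 2), sin (arcsin √(B + (A - B) * sin τ ^ 2)) =
      √(B + (A - B) * sin τ ^ 2) := by
    intro τ hτ
    obtain ⟨h1, h2⟩ := hx τ hτ
    exact sin_arcsin (by linarith) h2.le
  have hxs : ∀ τ ∈ Ioo 0 (π / 2), sin s < √(B + (A - B) * sin τ ^ 2) ∧
      √(B + (A - B) * sin τ ^ 2) < sin R := by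
    intro τ hτ
    obtain ⟨h1, h2⟩ := hQ τ hτ
    constructor
    · apply Real.lt_sqrt_of_sq_lt
      rw [← hB]; exact h1
    · rw [Real.sqrt_lt' (by linarith), ← hA]
      exact h2
  have himg : (fun φ => arcsin √(B + (A - B) * sin φ ^ 2)) '' Ioo 0 (π / 2) = Ioo s R := by
    ext α
    constructor
    · rintro ⟨φ, hφ, rfl⟩
      obtain ⟨h1, h2⟩ := hxs φ hφ
      have h3 := hsA φ hφ
      refine ⟨?_, ?_⟩
      · by_contra hc
        push Not at hc
        have := sin_le_sin_of_le_of_le_pi_div_two (neg_pi_div_two_le_arcsin _) (by linarith) hc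
        linarith
      · by_contra hc
        push Not at hc
        have := sin_le_sin_of_le_of_le_pi_div_two (by linarith) (arcsin_le_pi_div_two _) hc
        linarith
    · intro hα
      have h1 : sin s < sin α :=
        sin_lt_sin_of_lt_of_le_pi_div_two (by linarith) (by linarith [hα.2]) hα.1
      have h2 : sin α < sin R :=
        sin_lt_sin_of_lt_of_le_pi_div_two (by linarith [hα.1]) hR.le hα.2
      have h3 : B < sin α ^ 2 := by rw [hB]; nlinarith
      have h4 : sin α ^ 2 < A := by rw [hA]; nlinarith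
      have hq0 : 0 < (sin α ^ 2 - B) / (A - B) := div_pos (by linarith) (by linarith)
      have hq1 : (sin α ^ 2 - B) / (A - B) < 1 := (div_lt_one (by linarith)).2 (by linarith)
      have hq0' : 0 < √((sin α ^ 2 - B) / (A - B)) := Real.sqrt_pos.2 hq0
      have hq1' : √((sin α ^ 2 - B) / (A - B)) < 1 := by
        rw [Real.sqrt_lt' one_pos]; linarith
      refine ⟨arcsin √((sin α ^ 2 - B) / (A - B)), ⟨arcsin_pos.2 hq0', ?_⟩, ?_⟩
      · exact arcsin_lt_pi_div_two.2 hq1'
      · change arcsin √(B + (A - B) * sin (arcsin √((sin α ^ 2 - B) / (A - B))) ^ 2) = α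
        rw [sin_arcsin (by linarith) hq1'.le, Real.sq_sqrt hq0.le,
          mul_div_cancel₀ _ (by linarith : A - B ≠ 0), add_sub_cancel, Real.sqrt_sq (by linarith)]
        exact arcsin_sin (by linarith [hα.1]) (by linarith [hα.2])
  have hinj : InjOn (fun φ => arcsin √(B + (A - B) * sin φ ^ 2)) (Ioo 0 (π / 2)) := by
    intro τ hτ τ' hτ' h
    have h1 : √(B + (A - B) * sin τ ^ 2) = √(B + (A - B) * sin τ' ^ 2) := by
      rw [← hsA τ hτ, ← hsA τ' hτ']
      exact congrArg sin h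
    have h2 : B + (A - B) * sin τ ^ 2 = B + (A - B) * sin τ' ^ 2 := by
      rw [← hxsq τ hτ, ← hxsq τ' hτ', h1]
    have h3 : sin τ ^ 2 = sin τ' ^ 2 := by
      have h4 : (A - B) * sin τ ^ 2 = (A - B) * sin τ' ^ 2 := by linarith
      exact mul_left_cancel₀ (by linarith : A - B ≠ 0) h4
    have h4 : sin τ = sin τ' := by
      have a1 := (hst τ hτ).1
      have a2 := (hst τ' hτ').1
      exact (pow_left_inj₀ a1.le a2.le two_ne_zero).1 h3
    exact injOn_sin ⟨by linarith [hτ.1], hτ.2.le⟩ ⟨by linarith [hτ'.1], hτ'.2.le⟩ h4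
  have hder : ∀ φ ∈ Ioo 0 (π / 2), HasDerivWithinAt (fun φ => arcsin √(B + (A - B) * sin φ ^ 2))
      ((A - B) * sin φ * cos φ / (√(B + (A - B) * sin φ ^ 2) *
        √(1 - √(B + (A - B) * sin φ ^ 2) ^ 2))) (Ioo 0 (π / 2)) φ := by
    intro φ hφ
    obtain ⟨h1, h2⟩ := hx φ hφ
    have h3 : HasDerivAt (fun φ => B + (A - B) * sin φ ^ 2) ((A - B) * (2 * sin φ * cos φ)) φ := by
      have := (((hasDerivAt_sin φ).pow 2).const_mul (A - B)).const_add B
      refine this.congr_deriv ?_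
      norm_num
    have h4 : HasDerivAt (fun φ => √(B + (A - B) * sin φ ^ 2))
        ((A - B) * (2 * sin φ * cos φ) / (2 * √(B + (A - B) * sin φ ^ 2))) φ :=
      h3.sqrt (by linarith [(hQ φ hφ).1])
    have h5 := (hasDerivAt_arcsin (x := √(B + (A - B) * sin φ ^ 2)) (by linarith) h2.ne).comp φ h4
    refine (h5.congr_deriv ?_).hasDerivWithinAt
    have h6 : 0 < √(1 - √(B + (A - B) * sin φ ^ 2) ^ 2) := Real.sqrt_pos.2 (by nlinarith)
    field_simp
  rw [← himg, lintegral_image_eq_lintegral_abs_deriv_mul measurableSet_Ioo hder hinj]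
  have hone : ∀ φ ∈ Ioo 0 (π / 2), ENNReal.ofReal |(A - B) * sin φ * cos φ /
      (√(B + (A - B) * sin φ ^ 2) * √(1 - √(B + (A - B) * sin φ ^ 2) ^ 2))| *
      ENNReal.ofReal (sin (arcsin √(B + (A - B) * sin φ ^ 2)) *
        cos (arcsin √(B + (A - B) * sin φ ^ 2)) /
        (√(sin R ^ 2 - sin (arcsin √(B + (A - B) * sin φ ^ 2)) ^ 2) *
          √(sin (arcsin √(B + (A - B) * sin φ ^ 2)) ^ 2 - sin s ^ 2))) = 1 := by
    intro φ hφ
    obtain ⟨h1, h2⟩ := hx φ hφ
    have hct' := hct φ hφ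
    have hst' := (hst φ hφ).1
    have h6 : 0 < √(1 - √(B + (A - B) * sin φ ^ 2) ^ 2) := Real.sqrt_pos.2 (by nlinarith)
    have hd : 0 < A - B := by linarith
    have e1 : √(sin R ^ 2 - √(B + (A - B) * sin φ ^ 2) ^ 2) = √(A - B) * cos φ := by
      rw [hxsq φ hφ, ← hA]
      have : A - (B + (A - B) * sin φ ^ 2) = (A - B) * cos φ ^ 2 := by
        have := sin_sq_add_cos_sq φ
        have h5 : cos φ ^ 2 = 1 - sin φ ^ 2 := by linarith
        rw [h5]; ring
      rw [this, Real.sqrt_mul hd.le, Real.sqrt_sq hct'.le]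
    have e2 : √(√(B + (A - B) * sin φ ^ 2) ^ 2 - sin s ^ 2) = √(A - B) * sin φ := by
      rw [hxsq φ hφ, ← hB]
      have : B + (A - B) * sin φ ^ 2 - B = (A - B) * sin φ ^ 2 := by ring
      rw [this, Real.sqrt_mul hd.le, Real.sqrt_sq hst'.le]
    rw [hsA φ hφ, cos_arcsin, e1, e2, ← ENNReal.ofReal_mul (abs_nonneg _),
      abs_of_pos (by positivity), ← ENNReal.ofReal_one]
    congr 1
    have h7 : √(A - B) * cos φ * (√(A - B) * sin φ) = (A - B) * (sin φ * cos φ) := by
      calc √(A - B) * cos φ * (√(A - B) * sin φ) = (√(A - B) * √(A - B)) * (sin φ * cos φ) := by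
            ring
        _ = _ := by rw [Real.mul_self_sqrt hd.le]
    rw [h7]
    field_simp
  rw [setLIntegral_congr_fun measurableSet_Ioo hone, setLIntegral_one, Real.volume_Ioo, sub_zero]

theorem t_INV2 : T_INV2 := by
  intro d R hR f hf
  have hpi := Real.pi_pos
  obtain ⟨hR0, hR1⟩ := hR
  let w : ℝ → ℝ≥0∞ := fun α => ENNReal.ofReal (sin α * cos α / √(sin R ^ 2 - sin α ^ 2))
  have hwm : Measurable w := by
    simp only [w]
    fun_prop
  set G : ℝ → ℝ → ℝ≥0∞ := fun α s => if s < α then w α * (kk d α s * f s) else 0 with hG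
  have hGm : Measurable (Function.uncurry G) := by
    refine Measurable.ite (measurableSet_lt measurable_snd measurable_fst) ?_ measurable_const
    exact Measurable.mul (hwm.comp measurable_fst) ((kk_meas d).mul (hf.comp measurable_snd))
  have e1 : ∀ α ∈ Ioo 0 R, ENNReal.ofReal (sin α * cos α / √(sin R ^ 2 - sin α ^ 2)) *
      ∫⁻ τ in Ioo 0 π, ENNReal.ofReal (1 / C α τ ^ (d + 2)) * f (S α τ) =
      2 * ∫⁻ s in Ioo 0 R, G α s := by
    intro α hα
    rw [half (F := fun τ => ENNReal.ofReal (1 / C α τ ^ (d + 2)) * f (S α τ)) (fun τ => by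
      unfold C S
      rw [sin_pi_sub]), inner_sub d f ⟨hα.1, hα.2.trans hR1⟩, mul_left_comm]
    congr 1
    rw [← lintegral_const_mul' _ _ ENNReal.ofReal_ne_top, ← lintegral_indicator measurableSet_Ioo,
      ← lintegral_indicator measurableSet_Ioo]
    refine lintegral_congr fun s => ?_
    by_cases hs : s ∈ Ioo 0 α
    · rw [indicator_of_mem hs, indicator_of_mem (show s ∈ Ioo 0 R from ⟨hs.1, hs.2.trans hα.2⟩),
        hG]
      simp only
      rw [if_pos hs.2]
    · rw [indicator_of_notMem hs]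
      by_cases hs' : s ∈ Ioo 0 R
      · rw [indicator_of_mem hs', hG]
        simp only
        rw [if_neg fun h => hs ⟨hs'.1, h⟩]
      · rw [indicator_of_notMem hs']
  have e2 : ∀ s ∈ Ioo 0 R, ∫⁻ α in Ioo 0 R, G α s =
      ENNReal.ofReal (π / 2) * (ENNReal.ofReal (1 / cos s ^ (d + 1)) * f s) := by
    intro s hs
    have hcs : 0 < cos s := cos_pos_of_mem_Ioo ⟨by linarith [hs.1], hs.2.trans hR1⟩
    rw [← W_int hs.1 hs.2 hR1, ← lintegral_mul_const'' _ ?_, ← lintegral_indicator measurableSet_Ioo,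
      ← lintegral_indicator measurableSet_Ioo]
    · refine lintegral_congr fun α => ?_
      by_cases hα : α ∈ Ioo s R
      · have hα0 : 0 < α := hs.1.trans hα.1
        have hsa : 0 < sin α := sin_pos_of_pos_of_lt_pi hα0 (by linarith [hα.2])
        have hca : 0 < cos α := cos_pos_of_mem_Ioo ⟨by linarith, hα.2.trans hR1⟩
        have hsR : sin α < sin R :=
          sin_lt_sin_of_lt_of_le_pi_div_two (by linarith) hR1.le hα.2
        have hss : sin s < sin α :=
          sin_lt_sin_of_lt_of_le_pi_div_two (by linarith [hs.1]) (by linarith [hα.2]) hα.1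
        have hs0 : 0 < sin s := sin_pos_of_pos_of_lt_pi hs.1 (by linarith [hs.2])
        have q1 : 0 < √(sin R ^ 2 - sin α ^ 2) := Real.sqrt_pos.2 (by nlinarith)
        have q2 : 0 < √(sin α ^ 2 - sin s ^ 2) := Real.sqrt_pos.2 (by nlinarith)
        rw [indicator_of_mem hα,
          indicator_of_mem (show α ∈ Ioo 0 R from ⟨hα0, hα.2⟩), hG]
        simp only
        rw [if_pos hα.1]
        simp only [w]
        unfold kk
        rw [← mul_assoc, ← mul_assoc, ← ENNReal.ofReal_mul (by positivity),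
          ← ENNReal.ofReal_mul (by positivity)]
        congr 2
        field_simp
      · rw [indicator_of_notMem hα]
        by_cases hα' : α ∈ Ioo 0 R
        · rw [indicator_of_mem hα', hG]
          simp only
          rw [if_neg fun h => hα ⟨h, hα'.2⟩]
        · rw [indicator_of_notMem hα']
    · refine Measurable.aemeasurable ?_
      fun_prop
  rw [setLIntegral_congr_fun measurableSet_Ioo e1, lintegral_const_mul' _ _ ENNReal.ofNat_ne_top,
    lintegral_lintegral_swap hGm.aemeasurable, setLIntegral_congr_fun measurableSet_Ioo e2,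
    lintegral_const_mul' _ _ ENNReal.ofReal_ne_top, ← mul_assoc]
  congr 1
  rw [show (2 : ℝ≥0∞) = ENNReal.ofReal 2 by norm_num, ← ENNReal.ofReal_mul (by norm_num)]
  congr 1
  ring

end Pool.Agent.Y908.HC
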